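import Pool.Agent.W907.NAdic.PartB

/-!
# Accumulation points of normalised `N`-adic complexity

The two assertions (a) and (b) of the problem hold together exactly for the bases `N ≥ 2` which are
prime powers. This answers the question for every `N`. The failure of (a) for the other bases is
the starting result `NonPrimePowerDisproof`, whose definitions are used; new is the proof of (a) and
(b) for all prime powers.

Proof of (a), `N = p ^ k`: the pairs `(u, g)` with `g a ≡ u` modulo `N^n` form a lattice of
determinant `N^n`. Let `v` be a shortest nonzero vector. If `p ∤ g` for `v` then the complexity is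
at most `n / 2`. Otherwise `v = p^j w` where `w` is an admissible pair for `(k n - j) / k` digits,
and a second basis vector gives `λ_n + λ_{n'} ≤ n' + 2` for some `n' ≤ n`. Together with
`λ_n + λ_{n+1} ≥ n - 1` at the jumps this gives `limsup δ_n = 1 - liminf δ_n`.
For (b) the digits either continue a shortest approximation or break it, according to whether
`λ_n` is larger than `B n + √n`.
-/

set_option autoImplicit false

namespace Pool.Agent.Results.MP_8b2777_lc.PrimePowerCriterion

open Pool.Agent.Results.MP_8b2777_lc.NonPrimePowerDisproof

/-- For every base `N ≥ 2`, the assertions (a) and (b) both hold if and only if `N` is a power of a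
prime. -/
theorem result : ∀ N : ℕ, 2 ≤ N → ((AssertionA N ∧ AssertionB N) ↔ IsPrimePow N) := by
  intro N hN
  constructor
  · rintro ⟨hA, -⟩
    by_contra hpp
    obtain ⟨a, t, h1, -, -, -, h2⟩ :=
      Pool.Agent.Results.MP_8b2777_lc.NonPrimePowerDisproof.result.1 N hN hpp
    obtain ⟨B, hB⟩ := hA a h1
    exact h2 B hB
  · intro h
    exact ⟨Pool.Agent.W907.NAdic.assertionA h, Pool.Agent.W907.NAdic.assertionB h⟩

end Pool.Agent.Results.MP_8b2777_lc.PrimePowerCriterion
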